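import Pool.Agent.Work.MP_223b32_FY.Interface2

/-!
Block COVER2: a set of pairs which is sparse in all products of cubes.
-/

namespace Pool.Agent.Work.FY

open Polynomial Finset TensorProduct Pool.Agent.Work.MP_223b32_ag
open Pool.Agent.Work.MP_223b32_ag_56 Pool.Agent.Work.FF Pool.Agent.Work.T3

theorem cover2_box_finite {n : ℕ} (u : Fin n → ℤ) (R : ℕ) :
    {c : Fin n → ℤ | ∀ i, u i ≤ c i ∧ c i < u i + R}.Finite := by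
  refine (Set.finite_Icc u (fun i => u i + R)).subset ?_
  intro c hc
  rw [Set.mem_Icc]
  exact ⟨fun i => (hc i).1, fun i => (hc i).2.le⟩

theorem stmt_COVER2 (hcov : Stmt_COVK) : Stmt_COVER2 := by
  intro q g k k' R η B hq hg hk hk' hR hRk hRk' hη hB
  obtain ⟨K, hK, hKc⟩ := hcov q g k R hq hg hk hR hRk
  obtain ⟨K', hK', hKc'⟩ := hcov q g k' R hq hg hk' hR hRk'
  set U : ℝ := 200 ^ g * √(q : ℝ) ^ (g * (g + 1) / 2) / √(g.factorial : ℝ) with hU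
  have hU0 : 0 ≤ U := by positivity
  let S : ((Fin g → ℤ) × (Fin (g - k) → ℤ)) × ((Fin g → ℤ) × (Fin (g - k') → ℤ)) →
      Set ((Fin (g - k) → ℤ) × (Fin (g - k') → ℤ)) := fun κ =>
    {c | (∀ i, κ.1.2 i ≤ c.1 i ∧ c.1 i < κ.1.2 i + R) ∧
      (∀ i, κ.2.2 i ≤ c.2 i ∧ c.2 i < κ.2.2 i + R) ∧
      (mk (glue c.1 κ.1.1), mk (glue c.2 κ.2.1)) ∈ B}
  let F : ((Fin g → ℤ) × (Fin (g - k) → ℤ)) × ((Fin g → ℤ) × (Fin (g - k') → ℤ)) →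
      ((Fin (g - k) → ℤ) × (Fin (g - k') → ℤ)) → ℤ[X] × ℤ[X] := fun κ c =>
    (mk (glue c.1 κ.1.1), mk (glue c.2 κ.2.1))
  have hSfin : ∀ κ, (S κ).Finite := by
    intro κ
    refine ((cover2_box_finite κ.1.2 R).prod (cover2_box_finite κ.2.2 R)).subset ?_
    intro c hc
    exact ⟨hc.1, hc.2.1⟩
  have hsub : (realWeil q g ×ˢ realWeil q g) ∩ B ⊆ ⋃ κ ∈ K ×ˢ K', F κ '' S κ := by
    rintro ⟨h, h'⟩ ⟨hh, hhB⟩
    obtain ⟨κ, hκ, c, hc, hce⟩ := hKc h hh.1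
    obtain ⟨κ', hκ', c', hc', hce'⟩ := hKc' h' hh.2
    simp only [Set.mem_iUnion]
    refine ⟨(κ, κ'), Finset.mem_product.2 ⟨hκ, hκ'⟩, (c, c'), ⟨hc, hc', ?_⟩, ?_⟩
    · simpa only [hce, hce'] using hhB
    · simp only [F, hce, hce']
  have hfinU : (⋃ κ ∈ K ×ˢ K', F κ '' S κ).Finite :=
    Set.Finite.biUnion (K ×ˢ K').finite_toSet fun κ _ => (hSfin κ).image _
  have h1 : ((realWeil q g ×ˢ realWeil q g) ∩ B).ncard ≤ ∑ κ ∈ K ×ˢ K', (S κ).ncard := by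
    calc ((realWeil q g ×ˢ realWeil q g) ∩ B).ncard
        ≤ (⋃ κ ∈ K ×ˢ K', F κ '' S κ).ncard := Set.ncard_le_ncard hsub hfinU
      _ ≤ ∑ κ ∈ K ×ˢ K', (F κ '' S κ).ncard := Finset.set_ncard_biUnion_le _ _
      _ ≤ ∑ κ ∈ K ×ˢ K', (S κ).ncard :=
          Finset.sum_le_sum fun κ _ => Set.ncard_image_le (hSfin κ)
  have h2 : (∑ κ ∈ K ×ˢ K', ((S κ).ncard : ℝ)) ≤
      ∑ _κ ∈ K ×ˢ K', η * (R : ℝ) ^ ((g - k) + (g - k')) :=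
    Finset.sum_le_sum fun κ _ => hB κ.1.1 κ.2.1 κ.1.2 κ.2.2
  have h3 : (∑ _κ ∈ K ×ˢ K', η * (R : ℝ) ^ ((g - k) + (g - k'))) =
      η * (((K.card : ℝ) * (R : ℝ) ^ (g - k)) * ((K'.card : ℝ) * (R : ℝ) ^ (g - k'))) := by
    rw [Finset.sum_const, Finset.card_product, nsmul_eq_mul, pow_add]
    push_cast
    ring
  calc (((realWeil q g ×ˢ realWeil q g) ∩ B).ncard : ℝ)
      ≤ ((∑ κ ∈ K ×ˢ K', (S κ).ncard : ℕ) : ℝ) := by exact_mod_cast h1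
    _ = ∑ κ ∈ K ×ˢ K', ((S κ).ncard : ℝ) := by push_cast; rfl
    _ ≤ η * (((K.card : ℝ) * (R : ℝ) ^ (g - k)) * ((K'.card : ℝ) * (R : ℝ) ^ (g - k'))) :=
        h2.trans_eq h3
    _ ≤ η * (U * U) := by
        refine mul_le_mul_of_nonneg_left ?_ hη
        exact mul_le_mul hK hK' (by positivity) hU0
    _ = η * U ^ 2 := by rw [sq]

end Pool.Agent.Work.FY
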