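import Pool.Agent.Work.MP_223b32_FY.Interface

/-!
Block PERM of the project FY (MP_223b32_ag): alternating groups from cycle types.
-/

set_option autoImplicit false

namespace Pool.Agent.Work.FY.PERM

open Finset

variable {X : Type} [Fintype X] [DecidableEq X]

/-- the period of a point of a cycle -/
lemma period (σ : Equiv.Perm X) (C : Finset X) (h1 : ∀ x ∈ C, σ x ∈ C)
    (h2 : ∀ x ∈ C, ∀ y ∈ C, ∃ n : ℕ, (σ ^ n) x = y) {x : X} (hx : x ∈ C) :
    Function.minimalPeriod σ x = C.card := by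
  have hper : x ∈ Function.periodicPts σ := by
    rw [Function.mem_periodicPts]
    refine ⟨orderOf σ, orderOf_pos σ, ?_⟩
    show (⇑σ)^[orderOf σ] x = x
    rw [← Equiv.Perm.coe_pow, pow_orderOf_eq_one]
    rfl
  set p := Function.minimalPeriod σ x with hp
  have hp0 : 0 < p := Function.minimalPeriod_pos_of_mem_periodicPts hper
  have hmem : ∀ n : ℕ, (⇑σ)^[n] x ∈ C := by
    intro n
    induction n with
    | zero => exact hx
    | succ n ih =>
      rw [Function.iterate_succ_apply']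
      exact h1 _ ih
  have hC : C = (range p).image (fun n => (⇑σ)^[n] x) := by
    ext y
    constructor
    · intro hy
      obtain ⟨n, hn⟩ := h2 x hx y hy
      rw [mem_image]
      refine ⟨n % p, mem_range.mpr (Nat.mod_lt _ hp0), ?_⟩
      rw [Function.iterate_mod_minimalPeriod_eq, ← hn, Equiv.Perm.coe_pow]
    · intro hy
      obtain ⟨n, _, rfl⟩ := mem_image.mp hy
      exact hmem n
  rw [hC, card_image_of_injOn, card_range]
  intro a ha b hb hab
  have ha' := mem_range.mp (mem_coe.mp ha)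
  have hb' := mem_range.mp (mem_coe.mp hb)
  exact (Function.iterate_eq_iterate_iff_of_lt_minimalPeriod ha' hb').mp hab

lemma pow_fix (σ : Equiv.Perm X) (C : Finset X) (h1 : ∀ x ∈ C, σ x ∈ C)
    (h2 : ∀ x ∈ C, ∀ y ∈ C, ∃ n : ℕ, (σ ^ n) x = y) {x : X} (hx : x ∈ C) {n : ℕ}
    (hn : C.card ∣ n) : (σ ^ n) x = x := by
  rw [← period σ C h1 h2 hx] at hn
  have := (Function.isPeriodicPt_minimalPeriod σ x).trans_dvd hn
  rw [Equiv.Perm.coe_pow]
  exact this

end Pool.Agent.Work.FY.PERM

namespace Pool.Agent.Work.FY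

open Finset PERM

theorem stmt_PERM (hT : Stmt_TWO) (hB : Stmt_BOCH) : Stmt_PERM := by
  intro X _ _ H htr σ hσ C₁ C₂ C₃ hcov h12 h13 h23 i1 i2 i3 t1 t2 t3 g12 g13 g1X c2 c3 h8
  have hcard : Fintype.card X = C₁.card + C₂.card + C₃.card := by
    have hu : (univ : Finset X) = (C₁ ∪ C₂) ∪ C₃ := by
      ext x
      simp only [mem_univ, mem_union, true_iff]
      rcases hcov x with h | h | h
      · exact Or.inl (Or.inl h)
      · exact Or.inl (Or.inr h)
      · exact Or.inr h
    rw [← card_univ, hu, card_union_of_disjoint (disjoint_union_left.mpr ⟨h13, h23⟩),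
      card_union_of_disjoint h12]
  have hd1 : 0 < C₁.card := by omega
  set c := σ ^ (C₂.card * C₃.card) with hc
  have hcH : c ∈ H := H.pow_mem hσ _
  have hcfix : ∀ x ∉ C₁, c x = x := by
    intro x hx
    rcases hcov x with h | h | h
    · exact absurd h hx
    · exact pow_fix σ C₂ i2 t2 h (dvd_mul_right _ _)
    · exact pow_fix σ C₃ i3 t3 h (dvd_mul_left _ _)
  have hcop : Nat.Coprime (C₂.card * C₃.card) C₁.card :=
    Nat.Coprime.mul_left g12.symm g13.symm
  have hctr : ∀ x ∈ C₁, ∀ y ∈ C₁, ∃ n : ℕ, (c ^ n) x = y := by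
    intro x hx y hy
    obtain ⟨k, hk⟩ := t1 x hx y hy
    obtain ⟨z, hz1, hz2⟩ := Nat.chineseRemainder hcop 0 k
    obtain ⟨n, hn⟩ := (Nat.modEq_zero_iff_dvd).mp hz1
    refine ⟨n, ?_⟩
    rw [hc, ← pow_mul, ← hn, ← hk]
    have hp := period σ C₁ i1 t1 hx
    rw [Equiv.Perm.coe_pow, Equiv.Perm.coe_pow, ← Function.iterate_mod_minimalPeriod_eq (n := z),
      ← Function.iterate_mod_minimalPeriod_eq (n := k), hp]
    rw [show z % C₁.card = k % C₁.card from hz2]
  have h2 := hT X H htr c hcH C₁ hcfix hctr g1X (by omega) (by omega)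
  have hd : ∀ x ∈ C₁, (σ ^ C₁.card) x = x := fun x hx => pow_fix σ C₁ i1 t1 hx dvd_rfl
  refine hB X H h2 ⟨σ ^ C₁.card, H.pow_mem hσ _, ?_, ?_⟩
  · intro h1
    have hne : C₂.Nonempty := card_pos.mp (by omega)
    obtain ⟨x, hx⟩ := hne
    have h3 : (⇑σ)^[C₁.card] x = x := by
      rw [← Equiv.Perm.coe_pow, h1]
      rfl
    have h4 : Function.minimalPeriod σ x ∣ C₁.card := Function.IsPeriodicPt.minimalPeriod_dvd h3
    rw [period σ C₂ i2 t2 hx] at h4
    have h5 := Nat.eq_one_of_dvd_coprimes g12 h4 dvd_rfl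
    omega
  · have hsup : (σ ^ C₁.card).support ⊆ C₂ ∪ C₃ := by
      intro x hx
      rw [Equiv.Perm.mem_support] at hx
      rcases hcov x with h | h | h
      · exact absurd (hd x h) hx
      · exact mem_union_left _ h
      · exact mem_union_right _ h
    have h6 := (card_le_card hsup).trans (card_union_le _ _)
    omega

end Pool.Agent.Work.FY
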